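import Pool.Agent.Y990.CB.Basic

set_option autoImplicit false

open MeasureTheory Set

/-!
Rotation by a right angle in a coordinate plane; convergence of the one-arm probabilities.
-/

namespace Pool.Agent.Y504.CB

open Pool.Agent.Y990.CB

noncomputable section

variable {d : ℕ}

/-- The rotation by a right angle in the plane of the coordinates `i` and `j`. -/
def rt (i j : Fin d) (hij : i ≠ j) : Z d ≃ Z d where
  toFun x := fun l => if l = i then - x j else if l = j then x i else x l
  invFun x := fun l => if l = i then x j else if l = j then - x i else x l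
  left_inv x := by
    funext l
    by_cases h1 : l = i
    · subst h1
      simp [hij.symm]
    · by_cases h2 : l = j
      · subst h2
        simp [hij.symm]
      · simp [h1, h2]
  right_inv x := by
    funext l
    by_cases h1 : l = i
    · subst h1
      simp [hij.symm]
    · by_cases h2 : l = j
      · subst h2
        simp [hij.symm]
      · simp [h1, h2]

lemma rt_apply (i j : Fin d) (hij : i ≠ j) (x : Z d) (l : Fin d) :
    rt i j hij x l = if l = i then - x j else if l = j then x i else x l := rfl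

/-- The coordinates of the rotated differences. -/
lemma rt_abs (i j : Fin d) (hij : i ≠ j) (x y : Z d) (l : Fin d) :
    |rt i j hij x l - rt i j hij y l| =
      |x (Equiv.swap i j l) - y (Equiv.swap i j l)| := by
  rw [rt_apply, rt_apply]
  by_cases h1 : l = i
  · subst h1
    rw [if_pos rfl, if_pos rfl, Equiv.swap_apply_left, ← neg_sub', abs_neg]
  · by_cases h2 : l = j
    · subst h2
      rw [if_neg h1, if_neg h1, if_pos rfl, if_pos rfl, Equiv.swap_apply_right]
    · rw [if_neg h1, if_neg h1, if_neg h2, if_neg h2, Equiv.swap_apply_of_ne_of_ne h1 h2]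

lemma rt_zero (i j : Fin d) (hij : i ≠ j) : rt i j hij (0 : Z d) = 0 := by
  funext l
  rw [rt_apply]
  simp

lemma rt_Nb (i j : Fin d) (hij : i ≠ j) (x y : Z d) :
    Nb (rt i j hij x) (rt i j hij y) ↔ Nb x y := by
  unfold Nb
  have h1 : ∑ l, |rt i j hij x l - rt i j hij y l| = ∑ l, |x l - y l| := by
    rw [Finset.sum_congr rfl fun l _ => rt_abs i j hij x y l]
    exact Equiv.sum_comp (Equiv.swap i j) (fun l => |x l - y l|)
  rw [h1]

lemma rt_mem_Bo (i j : Fin d) (hij : i ≠ j) (z x : Z d) (L : ℕ) :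
    rt i j hij x ∈ Bo (rt i j hij z) L ↔ x ∈ Bo z L := by
  constructor
  · intro h l
    have h1 := h (Equiv.swap i j l)
    rw [rt_abs, Equiv.swap_apply_self] at h1
    exact h1
  · intro h l
    rw [rt_abs]
    exact h _

lemma rt_image_Bo (i j : Fin d) (hij : i ≠ j) (z : Z d) (L : ℕ) :
    rt i j hij '' Bo z L = Bo (rt i j hij z) L := by
  ext x
  constructor
  · rintro ⟨y, hy, rfl⟩
    exact (rt_mem_Bo i j hij z y L).2 hy
  · intro hx
    refine ⟨(rt i j hij).symm x, ?_, Equiv.apply_symm_apply _ _⟩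
    rw [← rt_mem_Bo i j hij, Equiv.apply_symm_apply]
    exact hx

lemma rt_nm (i j : Fin d) (hij : i ≠ j) (v : Z d) : nm (rt i j hij v) = nm v := by
  have h0 : ∀ l, |rt i j hij v l| = |v (Equiv.swap i j l)| := by
    intro l
    have h1 := rt_abs i j hij v 0 l
    rw [rt_zero] at h1
    simpa using h1
  apply le_antisymm
  · rw [nm_le]
    intro l
    rw [h0]
    exact abs_le_nm v _
  · rw [nm_le]
    intro l
    have h1 := abs_le_nm (rt i j hij v) (Equiv.swap i j l)
    rw [h0, Equiv.swap_apply_self] at h1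
    exact h1

/-- **Rotation invariance.** -/
theorem rot : S_rot := by
  intro d v i j hij
  refine ⟨rt i j hij v, rt_nm i j hij v, ?_, ?_, ?_⟩
  · rw [rt_apply, if_pos rfl]
  · rw [rt_apply, if_neg hij.symm, if_pos rfl]
  intro M p ρ k
  rw [← mu_inv_real M p (rt i j hij) (Lk_meas M (Bo 0 ρ) (Bo 0 k) (Bo v k))]
  congr 1
  have hB : ∀ L, Bo (0 : Z d) L = rt i j hij '' Bo 0 L := by
    intro L
    rw [rt_image_Bo, rt_zero]
  ext ω
  constructor
  · rintro ⟨x, hx, y, hy, h⟩
    rw [hB] at hx h
    rw [← rt_image_Bo] at hy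
    obtain ⟨x, hx, rfl⟩ := hx
    obtain ⟨y, hy, rfl⟩ := hy
    exact ⟨x, hx, y, hy, (reach_sym M _ (rt_Nb i j hij) ω _ x y).2 h⟩
  · rintro ⟨x, hx, y, hy, h⟩
    refine ⟨rt i j hij x, ?_, rt i j hij y, (rt_mem_Bo i j hij v y k).2 hy, ?_⟩
    · rw [hB]
      exact ⟨x, hx, rfl⟩
    · rw [hB]
      exact (reach_sym M _ (rt_Nb i j hij) ω _ x y).1 h

/-- **Convergence of the one-arm probabilities.** -/
theorem arm : S_arm := by
  intro d M p hd
  have hanti : Antitone fun m : ℕ => {ω : M.ι → Bool | Am M ω 0 m 0} := by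
    refine antitone_nat_of_succ_le fun m => ?_
    rintro ω ⟨x', hx', h⟩
    refine exit_Am (self_mem_Bo 0 m) (Or.inl ?_) h
    intro hc
    obtain ⟨_, i, hi⟩ := hx'
    have h1 := hc i
    rw [hi] at h1
    push_cast at h1
    omega
  have hinter : ⋂ m : ℕ, {ω : M.ι → Bool | Am M ω 0 m 0} = Perc M 0 := by
    ext ω
    simp only [mem_iInter, mem_ofPred_eq]
    constructor
    · intro h hfin
      -- the coordinates of the cluster are bounded
      have h1 : ∀ m : ℕ, ∃ y ∈ cl M ω univ 0, m ≤ nm y := by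
        intro m
        obtain ⟨x', ⟨_, i, hi⟩, h2⟩ := h m
        refine ⟨x', reach_mono (subset_univ _) h2, ?_⟩
        have h3 := abs_le_nm x' i
        have h4 : |x' i - (0 : Z d) i| = |x' i| := by simp
        rw [h4] at hi
        rw [hi] at h3
        exact_mod_cast h3
      obtain ⟨B, hB⟩ := (hfin.image nm).bddAbove
      obtain ⟨y, hy, hy'⟩ := h1 (B + 1)
      have := hB ⟨y, hy, rfl⟩
      omega
    · intro h m
      obtain ⟨y, hy, hy'⟩ := Set.Infinite.exists_notMem_finite h (Bo_finite (0 : Z d) m)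
      exact exit_Am (self_mem_Bo 0 m) (Or.inl hy') hy
  have h1 := tendsto_measure_iInter_atTop (μ := mu M p)
    (s := fun m : ℕ => {ω : M.ι → Bool | Am M ω 0 m 0})
    (fun m => (Am_meas M 0 m 0).nullMeasurableSet) hanti ⟨0, measure_ne_top _ _⟩
  rw [hinter] at h1
  exact (ENNReal.tendsto_toReal (measure_ne_top _ _)).comp h1

end

end Pool.Agent.Y504.CB
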